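import Mathlib

set_option autoImplicit false

/-!
# Minimal subgraphs of the integer lattice: volume growth (basic definitions and lemmas)
-/

namespace Pool.Agent.R169.MinSub

open Set MeasureTheory
open scoped ENNReal

/-- The graph `ℤⁿ`: integer points `x`, `y` are adjacent when `|x - y| = 1`. -/
def lat (n : ℕ) : SimpleGraph (Fin n → ℤ) where
  Adj x y := ∑ i, (x i - y i) ^ 2 = 1
  symm := ⟨fun x y h => by
    rw [← h]
    exact Finset.sum_congr rfl fun i _ => by ring⟩
  loopless := ⟨fun x h => by simp at h⟩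

variable {n : ℕ}

/-- The vertex boundary `δΩ`: the points of `Ω` with a neighbour outside `Ω`. -/
def vertexBoundary (Ω : Set (Fin n → ℤ)) : Set (Fin n → ℤ) :=
  {x | x ∈ Ω ∧ ∃ y, y ∉ Ω ∧ (lat n).Adj x y}

/-- The exterior vertex boundary `τΩ`: the points outside `Ω` with a neighbour in `Ω`. -/
def exteriorBoundary (Ω : Set (Fin n → ℤ)) : Set (Fin n → ℤ) :=
  {z | z ∉ Ω ∧ ∃ w, w ∈ Ω ∧ (lat n).Adj z w}

/-- The closure `Ω ∪ τΩ`. -/
def closureSet (Ω : Set (Fin n → ℤ)) : Set (Fin n → ℤ) := Ω ∪ exteriorBoundary Ω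

/-- The edge boundary `∂Ω`: the edges with exactly one endpoint in `Ω`. -/
def edgeBoundary (Ω : Set (Fin n → ℤ)) : Set (Sym2 (Fin n → ℤ)) :=
  {e | ∃ x y, (lat n).Adj x y ∧ x ∈ Ω ∧ y ∉ Ω ∧ e = s(x, y)}

/-- `E_Ω`: the edges `{x, y}` with `x ∈ Ω` and `y` in the closure of `Ω`. -/
def edgesOf (Ω : Set (Fin n → ℤ)) : Set (Sym2 (Fin n → ℤ)) :=
  {e | ∃ x y, (lat n).Adj x y ∧ x ∈ Ω ∧ y ∈ closureSet Ω ∧ e = s(x, y)}

/-- `K` has least perimeter in the finite set `U`. -/
def LeastPerimeter (U K : Set (Fin n → ℤ)) : Prop :=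
  ∀ K' : Set (Fin n → ℤ), K' ⊆ closureSet U →
    K' ∩ exteriorBoundary U = K ∩ exteriorBoundary U →
      (edgeBoundary K ∩ edgesOf U).ncard ≤ (edgeBoundary K' ∩ edgesOf U).ncard

/-- `M` is a minimal subgraph of `ℤⁿ`: a proper nonempty set such that `M` intersected with the
closure of `U` has least perimeter in `U` for every finite `U`. -/
def IsMinimalSubgraph (M : Set (Fin n → ℤ)) : Prop :=
  M.Nonempty ∧ M ≠ Set.univ ∧ ∀ U : Set (Fin n → ℤ), U.Finite → LeastPerimeter U (M ∩ closureSet U)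

/-- The integer points of the cube `{y ∈ ℝⁿ : max |y i - x i| ≤ r}`. -/
def cube (x : Fin n → ℤ) (r : ℝ) : Set (Fin n → ℤ) := {y | ∀ i, |(y i : ℝ) - x i| ≤ r}

theorem adj_iff {x y : Fin n → ℤ} : (lat n).Adj x y ↔
    ∃ i, (y i = x i + 1 ∨ y i = x i - 1) ∧ ∀ j, j ≠ i → y j = x j := by
  constructor
  · intro h
    have h' : ∑ i, (x i - y i) ^ 2 = 1 := h
    obtain ⟨i, hi⟩ : ∃ i, x i - y i ≠ 0 := by
      by_contra hc
      push Not at hc
      have : ∑ i, (x i - y i) ^ 2 = 0 := Finset.sum_eq_zero fun i _ => by rw [hc i]; norm_num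
      omega
    have hs := Finset.add_sum_erase Finset.univ (fun i => (x i - y i) ^ 2) (Finset.mem_univ i)
    have h0 : 0 ≤ ∑ j ∈ Finset.univ.erase i, (x j - y j) ^ 2 :=
      Finset.sum_nonneg fun j _ => sq_nonneg _
    have h1 : 1 ≤ (x i - y i) ^ 2 := by
      have : 0 < (x i - y i) ^ 2 := by positivity
      omega
    have h2 : ∑ j ∈ Finset.univ.erase i, (x j - y j) ^ 2 = 0 := by omega
    have h3 : (x i - y i) ^ 2 = 1 := by omega
    refine ⟨i, ?_, ?_⟩
    · have : x i - y i = 1 ∨ x i - y i = -1 := sq_eq_one_iff_of_ne_zero_aux h3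
      omega
    · intro j hj
      have h4 := (Finset.sum_eq_zero_iff_of_nonneg fun j _ => sq_nonneg (x j - y j)).1 h2 j
        (Finset.mem_erase.2 ⟨hj, Finset.mem_univ j⟩)
      have h5 : x j - y j = 0 := by
        simpa using h4
      omega
  · rintro ⟨i, hi, hj⟩
    show ∑ i, (x i - y i) ^ 2 = 1
    rw [← Finset.add_sum_erase Finset.univ (fun i => (x i - y i) ^ 2) (Finset.mem_univ i)]
    rw [Finset.sum_eq_zero, add_zero]
    · rcases hi with h | h <;> rw [h] <;> ring
    · intro j hj'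
      rw [hj j (Finset.ne_of_mem_erase hj')]
      ring
where
  sq_eq_one_iff_of_ne_zero_aux {a : ℤ} (h : a ^ 2 = 1) : a = 1 ∨ a = -1 := sq_eq_one_iff_of_ne_zero' h
  sq_eq_one_iff_of_ne_zero' {a : ℤ} (h : a ^ 2 = 1) : a = 1 ∨ a = -1 := by
    have h1 : (a - 1) * (a + 1) = 0 := by ring_nf; omega
    rcases mul_eq_zero.1 h1 with h2 | h2 <;> omega

/-- the points of `W` whose upper neighbour in some direction is not in `W` -/
def upper (W : Finset (Fin n → ℤ)) : Finset (Fin n → ℤ) :=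
  W.filter fun y => ∃ i, Function.update y i (y i + 1) ∉ W

theorem exists_upper (W : Finset (Fin n → ℤ)) {x : Fin n → ℤ} (hx : x ∈ W) (i : Fin n) :
    ∃ t : ℤ, Function.update x i t ∈ upper W := by
  classical
  set T : Finset ℤ := (W.image fun y => y i).filter fun t => Function.update x i t ∈ W with hT
  have hne : T.Nonempty := by
    refine ⟨x i, ?_⟩
    rw [hT, Finset.mem_filter, Finset.mem_image]
    exact ⟨⟨x, hx, rfl⟩, by rwa [Function.update_eq_self]⟩
  obtain ⟨m, hmT, hmax⟩ : ∃ m ∈ T, ∀ m' ∈ T, m' ≤ m :=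
    ⟨T.max' hne, T.max'_mem hne, fun m' hm' => T.le_max' _ hm'⟩
  refine ⟨m, ?_⟩
  have h1 := hmT
  rw [hT, Finset.mem_filter] at h1
  unfold upper
  rw [Finset.mem_filter]
  refine ⟨h1.2, i, ?_⟩
  intro h2
  rw [Function.update_idem, Function.update_self] at h2
  have h3 : m + 1 ∈ T := by
    rw [hT, Finset.mem_filter, Finset.mem_image]
    refine ⟨⟨_, h2, ?_⟩, h2⟩
    rw [Function.update_self]
  have := hmax _ h3
  omega

/-- isoperimetric inequality in `ℤⁿ`, from the grid-lines lemma -/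
theorem iso (hn : 2 ≤ n) (W : Finset (Fin n → ℤ)) :
    (W.card : ℝ≥0∞) ≤ ((upper W).card : ℝ≥0∞) ^ ((n : ℝ) / (n - 1)) := by
  classical
  set f : (Fin n → ℤ) → ℝ≥0∞ := fun x => if x ∈ upper W then 1 else 0 with hf
  have hfm : Measurable f := measurable_of_countable f
  have hn' : (1 : ℝ) < (Fintype.card (Fin n) : ℝ) := by
    rw [Fintype.card_fin]
    exact_mod_cast hn
  have hp : Real.HolderConjugate (Fintype.card (Fin n) : ℝ) ((n : ℝ) / (n - 1)) := by
    have h := Real.HolderConjugate.conjExponent hn'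
    rw [Real.conjExponent, Fintype.card_fin] at h
    rw [Fintype.card_fin]
    exact h
  have key := lintegral_prod_lintegral_pow_le (fun _ : Fin n => (Measure.count : Measure ℤ)) hp hfm
  have hsing : ∀ a : Fin n → ℤ, (Measure.pi fun _ : Fin n => (Measure.count : Measure ℤ)) {a} = 1 := by
    intro a
    rw [Measure.pi_singleton]
    simp
  rw [lintegral_countable', lintegral_countable'] at key
  simp only [hsing, mul_one] at key
  have hR : ∑' a, f a = ((upper W).card : ℝ≥0∞) := by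
    rw [tsum_eq_sum (s := upper W)]
    · rw [hf]
      simp
    · intro b hb
      rw [hf]
      simp [hb]
  rw [hR] at key
  refine le_trans ?_ key
  refine le_trans ?_ (ENNReal.sum_le_tsum W)
  rw [← nsmul_one, ← Finset.sum_const]
  apply Finset.sum_le_sum
  intro x hx
  apply Finset.one_le_prod'
  intro i _
  have h1 : (1 : ℝ≥0∞) ≤ ∫⁻ t, f (Function.update x i t) ∂Measure.count := by
    obtain ⟨t, ht⟩ := exists_upper W hx i
    rw [lintegral_count]
    refine le_trans ?_ (ENNReal.le_tsum t)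
    rw [hf]
    simp [ht]
  apply ENNReal.one_le_rpow h1
  apply div_pos one_pos
  linarith

theorem iso_real (hn : 2 ≤ n) (W : Finset (Fin n → ℤ)) (b : ℝ) (hb : 0 ≤ b)
    (h : b ^ n ≤ (W.card : ℝ)) : b ^ (n - 1) ≤ ((upper W).card : ℝ) := by
  by_contra h'
  push Not at h'
  have hn1 : (0 : ℝ) < (n : ℝ) - 1 := by
    have : (2 : ℝ) ≤ n := by exact_mod_cast hn
    linarith
  have hp : (0 : ℝ) < (n : ℝ) / (n - 1) := by
    apply div_pos _ hn1
    linarith
  have h1 := iso hn W
  have h2 : (W.card : ℝ) ≤ ((upper W).card : ℝ) ^ ((n : ℝ) / (n - 1)) := by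
    have h3 := ENNReal.toReal_mono (ENNReal.rpow_ne_top_of_nonneg hp.le (by simp)) h1
    rw [← ENNReal.toReal_rpow, ENNReal.toReal_natCast, ENNReal.toReal_natCast] at h3
    exact h3
  have h4 : ((upper W).card : ℝ) ^ ((n : ℝ) / (n - 1)) < (b ^ (n - 1)) ^ ((n : ℝ) / (n - 1)) :=
    Real.rpow_lt_rpow (by positivity) h' hp
  have h5 : (b ^ (n - 1)) ^ ((n : ℝ) / (n - 1)) = b ^ n := by
    rw [← Real.rpow_natCast b (n - 1), ← Real.rpow_mul hb, Nat.cast_sub (by omega : 1 ≤ n),
      Nat.cast_one, mul_div_cancel₀ _ hn1.ne', Real.rpow_natCast]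
  linarith

/-- the integer box of radius `k` about `x` -/
noncomputable def box (x : Fin n → ℤ) (k : ℕ) : Finset (Fin n → ℤ) :=
  Fintype.piFinset fun i => Finset.Icc (x i - k) (x i + k)

theorem mem_box {x y : Fin n → ℤ} {k : ℕ} :
    y ∈ box x k ↔ ∀ i, x i - k ≤ y i ∧ y i ≤ x i + k := by
  unfold box
  rw [Fintype.mem_piFinset]
  simp only [Finset.mem_Icc]

theorem box_subset_succ (x : Fin n → ℤ) (k : ℕ) : box x k ⊆ box x (k + 1) := by
  intro y hy
  rw [mem_box] at hy ⊢
  intro i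
  have := hy i
  push_cast
  omega

theorem mem_box_succ_of_adj {x y z : Fin n → ℤ} {k : ℕ} (hy : y ∈ box x k)
    (h : (lat n).Adj z y) : z ∈ box x (k + 1) := by
  rw [mem_box] at hy ⊢
  obtain ⟨i, h1, h2⟩ := adj_iff.1 h
  intro j
  have h3 := hy j
  push_cast
  by_cases hj : j = i
  · subst hj
    omega
  · have := h2 j hj
    omega

theorem exteriorBoundary_subset (x : Fin n → ℤ) (k : ℕ) :
    exteriorBoundary (box x k : Set (Fin n → ℤ)) ⊆ box x (k + 1) := by
  rintro z ⟨_, w, hw, h⟩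
  exact mem_box_succ_of_adj hw h

theorem closureSet_subset (x : Fin n → ℤ) (k : ℕ) :
    closureSet (box x k : Set (Fin n → ℤ)) ⊆ box x (k + 1) := by
  apply Set.union_subset
  · exact_mod_cast box_subset_succ x k
  · exact exteriorBoundary_subset x k

theorem edgesOf_finite (x : Fin n → ℤ) (k : ℕ) :
    (edgesOf (box x k : Set (Fin n → ℤ))).Finite := by
  apply Set.Finite.subset
    (((box x (k + 1)) ×ˢ (box x (k + 1))).finite_toSet.image fun p => s(p.1, p.2))
  rintro e ⟨a, b, _, ha, hb, rfl⟩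
  refine ⟨(a, b), ?_, rfl⟩
  rw [Finset.mem_coe, Finset.mem_product]
  exact ⟨box_subset_succ x k ha, closureSet_subset x k hb⟩

/-- the trace of `M` on the box -/
noncomputable def tr (M : Set (Fin n → ℤ)) (x : Fin n → ℤ) (k : ℕ) : Finset (Fin n → ℤ) := by
  classical
  exact (box x k).filter (· ∈ M)

theorem mem_tr {M : Set (Fin n → ℤ)} {x y : Fin n → ℤ} {k : ℕ} :
    y ∈ tr M x k ↔ y ∈ box x k ∧ y ∈ M := by
  classical
  unfold tr
  exact Finset.mem_filter

/-- edges between the box and the part of `M` in its exterior boundary -/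
def outer (M : Set (Fin n → ℤ)) (x : Fin n → ℤ) (k : ℕ) : Set (Sym2 (Fin n → ℤ)) :=
  {e | ∃ u z, (lat n).Adj u z ∧ u ∈ box x k ∧ z ∉ box x k ∧ z ∈ M ∧ e = s(u, z)}

theorem outer_subset (M : Set (Fin n → ℤ)) (x : Fin n → ℤ) (k : ℕ) :
    outer M x k ⊆ (fun z : Fin n → ℤ =>
      s((fun i => max (x i - k) (min (x i + k) (z i))), z)) ''
        ((tr M x (k + 1) \ tr M x k : Finset (Fin n → ℤ)) : Set (Fin n → ℤ)) := by
  rintro e ⟨u, z, h, hu, hz, hzM, rfl⟩
  refine ⟨z, ?_, ?_⟩
  · rw [Finset.mem_coe, Finset.mem_sdiff, mem_tr, mem_tr]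
    exact ⟨⟨mem_box_succ_of_adj hu h.symm, hzM⟩, fun h' => hz h'.1⟩
  · have : (fun i => max (x i - k) (min (x i + k) (z i))) = u := by
      funext i
      obtain ⟨j, h1, h2⟩ := adj_iff.1 h
      rw [mem_box] at hu hz
      push Not at hz
      obtain ⟨i', hi'⟩ := hz
      have hi'' : i' = j := by
        by_contra hne
        have h3 := h2 i' hne
        have h4 := hu i'
        have h5 := hi' (by omega)
        omega
      subst hi''
      by_cases hi : i = i'
      · subst hi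
        have h4 := hu i
        by_cases h6 : x i - k ≤ z i
        · have := hi' h6
          omega
        · omega
      · have h3 := h2 i hi
        have h4 := hu i
        omega
    show s((fun i => max (x i - k) (min (x i + k) (z i))), z) = _
    rw [this]

theorem outer_finite (M : Set (Fin n → ℤ)) (x : Fin n → ℤ) (k : ℕ) : (outer M x k).Finite :=
  ((Finset.finite_toSet _).image _).subset (outer_subset M x k)

theorem outer_ncard (M : Set (Fin n → ℤ)) (x : Fin n → ℤ) (k : ℕ) :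
    (outer M x k).ncard ≤ (tr M x (k + 1) \ tr M x k).card := by
  refine le_trans (Set.ncard_le_ncard (outer_subset M x k) ((Finset.finite_toSet _).image _)) ?_
  refine le_trans (Set.ncard_image_le (Finset.finite_toSet _)) ?_
  rw [Set.ncard_coe_finset]

theorem edgeBoundary_tr_subset (M : Set (Fin n → ℤ)) (x : Fin n → ℤ) (k : ℕ) :
    edgeBoundary (tr M x k : Set (Fin n → ℤ)) ⊆
      (edgeBoundary (M ∩ closureSet (box x k : Set (Fin n → ℤ))) ∩
        edgesOf (box x k : Set (Fin n → ℤ))) ∪ outer M x k := by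
  rintro e ⟨a, b, h, ha, hb, rfl⟩
  rw [Finset.mem_coe, mem_tr] at ha hb
  by_cases hbM : b ∈ M
  · right
    exact ⟨a, b, h, ha.1, fun h' => hb ⟨h', hbM⟩, hbM, rfl⟩
  · left
    have hbc : b ∈ closureSet (box x k : Set (Fin n → ℤ)) := by
      by_cases hb' : b ∈ box x k
      · exact Or.inl hb'
      · exact Or.inr ⟨hb', a, ha.1, h.symm⟩
    refine ⟨⟨a, b, h, ⟨ha.2, Or.inl ha.1⟩, fun h' => hbM h'.1, rfl⟩, ⟨a, b, h, ha.1, hbc, rfl⟩⟩

theorem competitor_subset (M : Set (Fin n → ℤ)) (x : Fin n → ℤ) (k : ℕ) :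
    edgeBoundary (M ∩ exteriorBoundary (box x k : Set (Fin n → ℤ))) ∩
      edgesOf (box x k : Set (Fin n → ℤ)) ⊆ outer M x k := by
  rintro e ⟨⟨a, b, h, ha, hb, rfl⟩, ⟨p, q, h', hp, hq, he⟩⟩
  rw [Sym2.eq_iff] at he
  rcases he with ⟨rfl, rfl⟩ | ⟨rfl, rfl⟩
  · exact absurd hp ha.2.1
  · exact ⟨b, a, h', hp, ha.2.1, ha.1, Sym2.eq_swap⟩

theorem upper_le_edgeBoundary (W : Finset (Fin n → ℤ))
    (hW : (edgeBoundary (W : Set (Fin n → ℤ))).Finite) :
    (upper W).card ≤ (edgeBoundary (W : Set (Fin n → ℤ))).ncard := by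
  classical
  have hex : ∀ y : Fin n → ℤ, ∃ e : Sym2 (Fin n → ℤ), y ∈ upper W →
      ∃ i, Function.update y i (y i + 1) ∉ W ∧ e = s(y, Function.update y i (y i + 1)) := by
    intro y
    by_cases hy : y ∈ upper W
    · have hy' := hy
      unfold upper at hy'
      rw [Finset.mem_filter] at hy'
      obtain ⟨i, hi⟩ := hy'.2
      exact ⟨_, fun _ => ⟨i, hi, rfl⟩⟩
    · exact ⟨s(y, y), fun h => absurd h hy⟩
  choose f hf using hex
  rw [← Set.ncard_coe_finset]
  apply Set.ncard_le_ncard_of_injOn f _ _ hW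
  · intro y hy
    obtain ⟨i, hi, he⟩ := hf y hy
    unfold upper at hy
    rw [Finset.mem_coe, Finset.mem_filter] at hy
    refine ⟨y, _, ?_, hy.1, hi, he⟩
    rw [adj_iff]
    refine ⟨i, ?_, ?_⟩
    · left
      rw [Function.update_self]
    · intro j hj
      rw [Function.update_of_ne hj]
  · intro y hy z hz hyz
    obtain ⟨i, hi, he⟩ := hf y hy
    obtain ⟨j, hj, he'⟩ := hf z hz
    rw [he, he', Sym2.eq_iff] at hyz
    rcases hyz with h | h
    · exact h.1
    · exfalso
      have h1 := congrFun h.1 j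
      have h2 := congrFun h.2 j
      rw [Function.update_self] at h1
      by_cases hij : j = i
      · subst hij
        rw [Function.update_self] at h2
        omega
      · rw [Function.update_of_ne hij] at h2
        omega

theorem step {M : Set (Fin n → ℤ)} (hM : IsMinimalSubgraph M) (x : Fin n → ℤ) (k : ℕ) :
    (upper (tr M x k)).card + 2 * (tr M x k).card ≤ 2 * (tr M x (k + 1)).card := by
  classical
  have hsub : tr M x k ⊆ tr M x (k + 1) := by
    intro y hy
    rw [mem_tr] at hy ⊢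
    exact ⟨box_subset_succ x k hy.1, hy.2⟩
  have hfin : (edgeBoundary (M ∩ closureSet (box x k : Set (Fin n → ℤ))) ∩
        edgesOf (box x k : Set (Fin n → ℤ))).Finite :=
    (edgesOf_finite x k).subset Set.inter_subset_right
  have hfin' : (edgeBoundary (tr M x k : Set (Fin n → ℤ))).Finite :=
    (hfin.union (outer_finite M x k)).subset (edgeBoundary_tr_subset M x k)
  have h1 := upper_le_edgeBoundary (tr M x k) hfin'
  have h2 := Set.ncard_le_ncard (edgeBoundary_tr_subset M x k)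
    (hfin.union (outer_finite M x k))
  have h3 := Set.ncard_union_le (edgeBoundary (M ∩ closureSet (box x k : Set (Fin n → ℤ))) ∩
        edgesOf (box x k : Set (Fin n → ℤ))) (outer M x k)
  have h4 := hM.2.2 (box x k : Set (Fin n → ℤ)) (Finset.finite_toSet _)
    (M ∩ exteriorBoundary (box x k : Set (Fin n → ℤ)))
    (fun y hy => Or.inr hy.2) (by
      ext y
      constructor
      · intro hy
        exact ⟨⟨hy.1.1, Or.inr hy.1.2⟩, hy.2⟩
      · intro hy
        exact ⟨⟨hy.1.1, hy.2⟩, hy.2⟩)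
  have h5 := Set.ncard_le_ncard (competitor_subset M x k) (outer_finite M x k)
  have h6 := outer_ncard M x k
  have h7 : (tr M x (k + 1) \ tr M x k).card + (tr M x k).card = (tr M x (k + 1)).card :=
    Finset.card_sdiff_add_card_eq_card hsub
  omega

theorem pow_aux (b c : ℝ) (hc : 0 ≤ c) (hcb : c ≤ b) (m : ℕ) :
    b * (b + c) ^ m ≤ b ^ (m + 1) + (2 ^ m - 1) * c * b ^ m := by
  induction m with
  | zero => simp
  | succ m ih =>
    have hb : 0 ≤ b := hc.trans hcb
    have h1 : (b + c) * (b * (b + c) ^ m) ≤ (b + c) * (b ^ (m + 1) + (2 ^ m - 1) * c * b ^ m) :=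
      mul_le_mul_of_nonneg_left ih (by linarith)
    have h2 : (0 : ℝ) ≤ 2 ^ m - 1 := by
      have : (1 : ℝ) ≤ 2 ^ m := one_le_pow₀ (by norm_num)
      linarith
    have h3 : (2 ^ m - 1) * c * b ^ m * c ≤ (2 ^ m - 1) * c * b ^ m * b :=
      mul_le_mul_of_nonneg_left hcb (by positivity)
    have h4 : b * (b + c) ^ (m + 1) = (b + c) * (b * (b + c) ^ m) := by ring
    rw [h4]
    refine h1.trans ?_
    have h5 : (b + c) * (b ^ (m + 1) + (2 ^ m - 1) * c * b ^ m) =
      b ^ (m + 1 + 1) + c * b ^ (m + 1) + (2 ^ m - 1) * c * b ^ m * b +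
        (2 ^ m - 1) * c * b ^ m * c := by ring
    have h6 : b ^ (m + 1 + 1) + (2 ^ (m + 1) - 1) * c * b ^ (m + 1) =
      b ^ (m + 1 + 1) + c * b ^ (m + 1) + (2 ^ m - 1) * c * b ^ m * b +
        (2 ^ m - 1) * c * b ^ m * b := by ring
    rw [h5, h6]
    linarith

theorem growth (hn : 2 ≤ n) {M : Set (Fin n → ℤ)} (hM : IsMinimalSubgraph M) {x : Fin n → ℤ}
    (hx : x ∈ M) (k : ℕ) : (1 + (k : ℝ) / 2 ^ (n + 1)) ^ n ≤ ((tr M x k).card : ℝ) := by
  induction k with
  | zero =>
    simp only [Nat.cast_zero, zero_div, add_zero, one_pow]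
    have : 0 < (tr M x 0).card := by
      apply Finset.card_pos.2
      refine ⟨x, ?_⟩
      rw [mem_tr, mem_box]
      refine ⟨fun i => ?_, hx⟩
      simp
    exact_mod_cast this
  | succ k ih =>
    set b : ℝ := 1 + (k : ℝ) / 2 ^ (n + 1) with hb
    have hb1 : 1 ≤ b := by
      rw [hb]
      have : 0 ≤ (k : ℝ) / 2 ^ (n + 1) := by positivity
      linarith
    have h1 := iso_real hn (tr M x k) b (by linarith) ih
    have h2 := step hM x k
    have h3 : ((upper (tr M x k)).card : ℝ) + 2 * ((tr M x k).card : ℝ) ≤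
      2 * ((tr M x (k + 1)).card : ℝ) := by exact_mod_cast h2
    have hc : (0 : ℝ) < 1 / 2 ^ (n + 1) := by positivity
    have hc1 : (1 : ℝ) / 2 ^ (n + 1) ≤ b := by
      refine le_trans ?_ hb1
      rw [div_le_one (by positivity)]
      exact one_le_pow₀ (by norm_num)
    have h4 := pow_aux b (1 / 2 ^ (n + 1)) hc.le hc1 n
    have h5 : 1 + ((k + 1 : ℕ) : ℝ) / 2 ^ (n + 1) = b + 1 / 2 ^ (n + 1) := by
      rw [hb]
      push_cast
      ring
    rw [h5]
    have h6 : ((2 : ℝ) ^ n - 1) * (1 / 2 ^ (n + 1)) ≤ 1 / 2 := by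
      rw [pow_succ]
      have h7 : (0 : ℝ) < 2 ^ n := by positivity
      rw [sub_mul, one_mul]
      have h8 : (2 : ℝ) ^ n * (1 / (2 ^ n * 2)) = 1 / 2 := by
        field_simp
      rw [h8]
      have : (0 : ℝ) < 1 / (2 ^ n * 2) := by positivity
      linarith
    have h7 : b * (b + 1 / 2 ^ (n + 1)) ^ n ≤ b * (b ^ n + b ^ (n - 1) / 2) := by
      refine h4.trans ?_
      have h8 : (2 ^ n - 1) * (1 / 2 ^ (n + 1)) * b ^ n ≤ 1 / 2 * b ^ n :=
        mul_le_mul_of_nonneg_right h6 (by positivity)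
      have h9 : b * b ^ (n - 1) = b ^ n := by
        rw [← pow_succ']
        congr 1
        omega
      calc b ^ (n + 1) + (2 ^ n - 1) * (1 / 2 ^ (n + 1)) * b ^ n
          ≤ b ^ (n + 1) + 1 / 2 * b ^ n := by linarith
        _ = b * (b ^ n + b ^ (n - 1) / 2) := by
          rw [mul_add, ← mul_div_assoc, h9]
          ring
    have h8 := le_of_mul_le_mul_left h7 (by linarith)
    linarith

theorem mem_closureSet_of_edgesOf {U : Set (Fin n → ℤ)} {a b : Fin n → ℤ}
    (h : s(a, b) ∈ edgesOf U) : a ∈ closureSet U ∧ b ∈ closureSet U := by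
  obtain ⟨p, q, _, hp, hq, he⟩ := h
  rw [Sym2.eq_iff] at he
  rcases he with ⟨rfl, rfl⟩ | ⟨rfl, rfl⟩
  · exact ⟨Or.inl hp, hq⟩
  · exact ⟨hq, Or.inl hp⟩

theorem edgeBoundary_diff (U K : Set (Fin n → ℤ)) :
    edgeBoundary (closureSet U \ K) ∩ edgesOf U = edgeBoundary K ∩ edgesOf U := by
  ext e
  constructor
  · rintro ⟨⟨a, b, h, ha, hb, rfl⟩, he⟩
    obtain ⟨h1, h2⟩ := mem_closureSet_of_edgesOf he
    refine ⟨⟨b, a, h.symm, ?_, ha.2, Sym2.eq_swap⟩, he⟩
    by_contra hK
    exact hb ⟨h2, hK⟩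
  · rintro ⟨⟨a, b, h, ha, hb, rfl⟩, he⟩
    obtain ⟨h1, h2⟩ := mem_closureSet_of_edgesOf he
    exact ⟨⟨b, a, h.symm, ⟨h2, hb⟩, fun h' => h'.2 ha, Sym2.eq_swap⟩, he⟩

theorem IsMinimalSubgraph.compl {M : Set (Fin n → ℤ)} (hM : IsMinimalSubgraph M) :
    IsMinimalSubgraph Mᶜ := by
  refine ⟨Set.nonempty_compl.2 hM.2.1, ?_, ?_⟩
  · intro h
    rw [Set.compl_univ_iff] at h
    exact hM.1.ne_empty h
  · intro U hU K' hK' hτ
    have h1 := hM.2.2 U hU (closureSet U \ K') Set.sdiff_subset (by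
      ext y
      constructor
      · rintro ⟨⟨h1, h2⟩, h3⟩
        refine ⟨⟨?_, h1⟩, h3⟩
        by_contra h4
        have : y ∈ (Mᶜ ∩ closureSet U) ∩ exteriorBoundary U := ⟨⟨h4, h1⟩, h3⟩
        rw [← hτ] at this
        exact h2 this.1
      · rintro ⟨⟨h1, h2⟩, h3⟩
        refine ⟨⟨h2, ?_⟩, h3⟩
        intro h4
        have : y ∈ K' ∩ exteriorBoundary U := ⟨h4, h3⟩
        rw [hτ] at this
        exact this.1.1 h1)
    rw [edgeBoundary_diff] at h1
    have h2 : Mᶜ ∩ closureSet U = closureSet U \ (M ∩ closureSet U) := by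
      ext y
      constructor
      · rintro ⟨h1, h2⟩
        exact ⟨h2, fun h3 => h1 h3.1⟩
      · rintro ⟨h1, h2⟩
        exact ⟨fun h3 => h2 ⟨h3, h1⟩, h1⟩
    rw [h2, edgeBoundary_diff]
    exact h1

theorem exists_step (P : ℤ → Prop) (p q : ℤ) (hp : P p) (hq : ¬ P q) :
    ∃ s, P s ∧ (¬ P (s + 1) ∨ ¬ P (s - 1)) ∧ min p q ≤ s ∧ s ≤ max p q := by
  by_contra hcon
  push Not at hcon
  rcases le_total p q with h | h
  · apply hq
    have : ∀ m, p ≤ m → m ≤ q → P m := by
      intro m hm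
      induction m, hm using Int.leInduction with
      | base => exact fun _ => hp
      | succ m hm ih =>
        intro h1
        by_contra h2
        have h3 := hcon m (ih (by omega)) (Or.inl h2) (by omega)
        omega
    exact this q h le_rfl
  · apply hq
    have : ∀ m, m ≤ p → q ≤ m → P m := by
      intro m hm
      induction m, hm using Int.leInductionDown with
      | base => exact fun _ => hp
      | pred m hm ih =>
        intro h1
        by_contra h2
        have h3 := hcon m (ih (by omega)) (Or.inr h2) (by omega)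
        omega
    exact this q h le_rfl

theorem exists_cross {M : Set (Fin n → ℤ)} {x a b : Fin n → ℤ} {k : ℕ}
    (ha : a ∈ tr M x k) (hb : b ∈ tr Mᶜ x k) :
    ∃ (j : Fin n) (w : Fin n → ℤ), w ∈ tr (vertexBoundary M) x k ∧
      ∀ i, i ≠ j → w i = if i < j then b i else a i := by
  classical
  rw [mem_tr] at ha hb
  set z : ℕ → Fin n → ℤ := fun m i => if i.val < m then b i else a i with hz
  have hz0 : z 0 = a := by
    funext i
    simp [hz]
  have hzn : z n = b := by
    funext i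
    simp [hz]
  obtain ⟨m, hm, h1, h2⟩ : ∃ m, m < n ∧ z m ∈ M ∧ z (m + 1) ∉ M := by
    by_contra hcon
    push Not at hcon
    have : ∀ m, m ≤ n → z m ∈ M := by
      intro m
      induction m with
      | zero =>
        intro _
        rw [hz0]
        exact ha.2
      | succ m ih =>
        intro h
        exact hcon m (by omega) (ih (by omega))
    have h3 := this n le_rfl
    rw [hzn] at h3
    exact hb.2 h3
  set j : Fin n := ⟨m, hm⟩ with hj
  have hjm : (j : ℕ) = m := rfl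
  have h3 : z m = Function.update (z m) j (a j) := by
    have : z m j = a j := by
      simp [hz, hj]
    rw [← this, Function.update_eq_self]
  have h4 : z (m + 1) = Function.update (z m) j (b j) := by
    funext i
    by_cases hi : i = j
    · rw [hi, Function.update_self]
      simp only [hz]
      rw [if_pos (by omega)]
    · rw [Function.update_of_ne hi]
      have hi' : i.val ≠ m := fun h => hi (Fin.ext h)
      simp only [hz]
      by_cases hlt : i.val < m
      · rw [if_pos hlt, if_pos (by omega)]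
      · rw [if_neg hlt, if_neg (by omega)]
  rw [h3] at h1
  rw [h4] at h2
  obtain ⟨s, hs1, hs2, hs3, hs4⟩ := exists_step (fun s => Function.update (z m) j s ∈ M) _ _ h1 h2
  refine ⟨j, Function.update (z m) j s, ?_, ?_⟩
  · rw [mem_tr]
    refine ⟨?_, hs1, ?_⟩
    · rw [mem_box] at ha hb ⊢
      intro i
      have ha' := ha.1 i
      have hb' := hb.1 i
      by_cases hi : i = j
      · subst hi
        rw [Function.update_self]
        omega
      · rw [Function.update_of_ne hi]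
        simp only [hz]
        split_ifs
        · exact hb'
        · exact ha'
    · rcases hs2 with h | h
      · refine ⟨_, h, ?_⟩
        rw [adj_iff]
        refine ⟨j, ?_, ?_⟩
        · left
          rw [Function.update_self, Function.update_self]
        · intro i hi
          rw [Function.update_of_ne hi, Function.update_of_ne hi]
      · refine ⟨_, h, ?_⟩
        rw [adj_iff]
        refine ⟨j, ?_, ?_⟩
        · right
          rw [Function.update_self, Function.update_self]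
        · intro i hi
          rw [Function.update_of_ne hi, Function.update_of_ne hi]
  · intro i hi
    rw [Function.update_of_ne hi]
    rfl

theorem card_box (x : Fin n → ℤ) (k : ℕ) : (box x k).card = (2 * k + 1) ^ n := by
  unfold box
  rw [Fintype.card_piFinset]
  have : ∀ i, (Finset.Icc (x i - k) (x i + k)).card = 2 * k + 1 := by
    intro i
    rw [Int.card_Icc]
    omega
  rw [Finset.prod_congr rfl fun i _ => this i, Finset.prod_const, Finset.card_univ,
    Fintype.card_fin]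

theorem cross (hn : 0 < n) (M : Set (Fin n → ℤ)) (x : Fin n → ℤ) (k : ℕ) :
    (tr M x k).card * (tr Mᶜ x k).card ≤
      n * (2 * k + 1) ^ (n + 1) * (tr (vertexBoundary M) x k).card := by
  classical
  have hex : ∀ p : (Fin n → ℤ) × (Fin n → ℤ), ∃ q : Fin n × (Fin n → ℤ),
      p ∈ tr M x k ×ˢ tr Mᶜ x k → q.2 ∈ tr (vertexBoundary M) x k ∧
      ∀ i, i ≠ q.1 → q.2 i = if i < q.1 then p.2 i else p.1 i := by
    intro p
    by_cases hp : p ∈ tr M x k ×ˢ tr Mᶜ x k
    · have hp' := Finset.mem_product.1 hp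
      obtain ⟨j, w, h1, h2⟩ := exists_cross hp'.1 hp'.2
      exact ⟨(j, w), fun _ => ⟨h1, h2⟩⟩
    · exact ⟨(⟨0, hn⟩, x), fun h => absurd h hp⟩
  choose f hf using hex
  rw [← Finset.card_product]
  have hcard : ((Finset.univ : Finset (Fin n)) ×ˢ (tr (vertexBoundary M) x k) ×ˢ (box x k) ×ˢ
      (Finset.Icc (-(k : ℤ)) k)).card =
      n * (2 * k + 1) ^ (n + 1) * (tr (vertexBoundary M) x k).card := by
    rw [Finset.card_product, Finset.card_product, Finset.card_product, card_box,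
      Finset.card_univ, Fintype.card_fin, Int.card_Icc]
    have : ((k : ℤ) + 1 - -(k : ℤ)).toNat = 2 * k + 1 := by omega
    rw [this]
    ring
  rw [← hcard]
  apply Finset.card_le_card_of_injOn (fun p =>
    ((f p).1, (f p).2, (fun i => if i < (f p).1 then p.1 i else p.2 i),
      p.1 (f p).1 - x (f p).1))
  · intro p hp
    have hp' : p ∈ tr M x k ×ˢ tr Mᶜ x k := hp
    rw [Finset.mem_coe, Finset.mem_product, Finset.mem_product, Finset.mem_product]
    have hp2 := hp'
    rw [Finset.mem_product, mem_tr, mem_tr, mem_box, mem_box] at hp2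
    refine ⟨Finset.mem_univ _, (hf p hp').1, ?_, ?_⟩
    · rw [mem_box]
      intro i
      have h1 := hp2.1.1 i
      have h2 := hp2.2.1 i
      show x i - k ≤ (if i < (f p).1 then p.1 i else p.2 i) ∧
        (if i < (f p).1 then p.1 i else p.2 i) ≤ x i + k
      split_ifs
      · exact h1
      · exact h2
    · rw [Finset.mem_Icc]
      have h1 := hp2.1.1 (f p).1
      show -(k : ℤ) ≤ p.1 (f p).1 - x (f p).1 ∧ p.1 (f p).1 - x (f p).1 ≤ k
      omega
  · intro p hp q hq hpq
    have hp' : p ∈ tr M x k ×ˢ tr Mᶜ x k := hp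
    have hq' : q ∈ tr M x k ×ˢ tr Mᶜ x k := hq
    simp only [Prod.mk.injEq] at hpq
    obtain ⟨h1, h2, h3, h4⟩ := hpq
    have e1 := (hf p hp').2
    have e2 := (hf q hq').2
    rw [← h1, ← h2] at e2
    rw [← h1] at h3 h4
    have key : ∀ i, p.1 i = q.1 i ∧ p.2 i = q.2 i := by
      intro i
      have h5 := congrFun h3 i
      by_cases hi : i = (f p).1
      · rw [← hi] at h4
        rw [← hi] at h5
        simp only [lt_irrefl, if_false] at h5
        exact ⟨by omega, h5⟩
      · have h6 := e1 i hi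
        have h7 := e2 i hi
        by_cases hlt : i < (f p).1
        · simp only [hlt, if_true] at h5 h6 h7
          exact ⟨h5, h6.symm.trans h7⟩
        · simp only [hlt, if_false] at h5 h6 h7
          exact ⟨h6.symm.trans h7, h5⟩
    exact Prod.ext (funext fun i => (key i).1) (funext fun i => (key i).2)

theorem inter_cube (M : Set (Fin n → ℤ)) (x : Fin n → ℤ) (r : ℝ) (hr : 0 ≤ r) :
    M ∩ cube x r = (tr M x ⌊r⌋₊ : Set (Fin n → ℤ)) := by
  ext y
  rw [Finset.mem_coe, mem_tr, mem_box, Set.mem_inter_iff, and_comm]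
  apply and_congr_left
  intro _
  unfold cube
  rw [Set.mem_ofPred_eq]
  apply forall_congr'
  intro i
  have h1 : |(y i : ℝ) - x i| = ((y i - x i).natAbs : ℝ) := by
    rw [Nat.cast_natAbs]
    push_cast
    rfl
  rw [h1, ← Nat.le_floor_iff hr]
  omega

theorem floor_growth (hn : 2 ≤ n) {M : Set (Fin n → ℤ)} (hM : IsMinimalSubgraph M)
    {x : Fin n → ℤ} (hx : x ∈ M) (r : ℝ) (hr : 0 ≤ r) :
    (1 / 2 ^ (n + 1)) ^ n * r ^ n ≤ ((M ∩ cube x r).ncard : ℝ) := by
  rw [inter_cube M x r hr, Set.ncard_coe_finset]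
  refine le_trans ?_ (growth hn hM hx ⌊r⌋₊)
  rw [← mul_pow]
  apply pow_le_pow_left₀ (by positivity)
  have h1 : r ≤ (⌊r⌋₊ : ℝ) + 1 := (Nat.lt_floor_add_one r).le
  have h2 : (0 : ℝ) < 2 ^ (n + 1) := by positivity
  have h3 : (1 : ℝ) ≤ 2 ^ (n + 1) := one_le_pow₀ (by norm_num)
  rw [one_div, inv_mul_le_iff₀ h2, mul_add, mul_div_cancel₀ _ h2.ne']
  linarith

theorem boundary_growth (hn : 2 ≤ n) {M : Set (Fin n → ℤ)} (hM : IsMinimalSubgraph M)
    {x : Fin n → ℤ} (hx : x ∈ M) :
    ∃ r₀ : ℝ, ∀ r, r₀ ≤ r → ((1 / 2 ^ (n + 1)) ^ n) ^ 2 / (2 ^ n * n * 3 ^ (n + 1)) *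
      r ^ (n - 1) ≤ ((vertexBoundary M ∩ cube x r).ncard : ℝ) := by
  obtain ⟨y, hy⟩ := Set.nonempty_compl.2 hM.2.1
  refine ⟨max 1 (2 * ∑ i, |(y i : ℝ) - x i|), fun r hr => ?_⟩
  have hr1 : 1 ≤ r := (le_max_left _ _).trans hr
  have hr2 : ∑ i, |(y i : ℝ) - x i| ≤ r / 2 := by
    have := (le_max_right _ _).trans hr
    linarith
  have hr0 : 0 ≤ r := by linarith
  set c : ℝ := (1 / 2 ^ (n + 1)) ^ n with hc
  have hc0 : 0 < c := by positivity
  have h1 := floor_growth hn hM hx r hr0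
  have h2 := floor_growth hn hM.compl hy (r / 2) (by linarith)
  have h3 : Mᶜ ∩ cube y (r / 2) ⊆ Mᶜ ∩ cube x r := by
    rintro z ⟨hz1, hz2⟩
    refine ⟨hz1, fun i => ?_⟩
    have h4 := hz2 i
    have h5 : |(y i : ℝ) - x i| ≤ ∑ i, |(y i : ℝ) - x i| :=
      Finset.single_le_sum (f := fun i => |(y i : ℝ) - x i|) (fun i _ => abs_nonneg _)
        (Finset.mem_univ i)
    have h6 : (z i : ℝ) - x i = ((z i : ℝ) - y i) + ((y i : ℝ) - x i) := by ring
    rw [h6]
    refine (abs_add_le _ _).trans ?_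
    linarith
  have hfin : (Mᶜ ∩ cube x r).Finite := by
    rw [inter_cube _ x r hr0]
    exact Finset.finite_toSet _
  have h4 : ((Mᶜ ∩ cube y (r / 2)).ncard : ℝ) ≤ ((Mᶜ ∩ cube x r).ncard : ℝ) := by
    exact_mod_cast Set.ncard_le_ncard h3 hfin
  rw [inter_cube _ x r hr0, Set.ncard_coe_finset] at h1 h4 ⊢
  set k := ⌊r⌋₊ with hk
  have h5 := cross (by omega) M x k
  have h6 : ((tr M x k).card : ℝ) * ((tr Mᶜ x k).card : ℝ) ≤
      n * (2 * k + 1) ^ (n + 1) * ((tr (vertexBoundary M) x k).card : ℝ) := by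
    exact_mod_cast h5
  have hk' : (k : ℝ) ≤ r := Nat.floor_le hr0
  have h7 : (2 * (k : ℝ) + 1) ^ (n + 1) ≤ (3 * r) ^ (n + 1) :=
    pow_le_pow_left₀ (by positivity) (by linarith) _
  have h8 : (c * r ^ n) * (c * (r / 2) ^ n) ≤
      ((tr M x k).card : ℝ) * ((tr Mᶜ x k).card : ℝ) :=
    mul_le_mul h1 (h2.trans h4) (by positivity) (by positivity)
  have hn0 : (0 : ℝ) < n := by
    have : 0 < n := by omega
    exact_mod_cast this
  have h9 : n * (2 * (k : ℝ) + 1) ^ (n + 1) * ((tr (vertexBoundary M) x k).card : ℝ) ≤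
      n * (3 * r) ^ (n + 1) * ((tr (vertexBoundary M) x k).card : ℝ) := by
    apply mul_le_mul_of_nonneg_right _ (by positivity)
    exact mul_le_mul_of_nonneg_left h7 hn0.le
  have h10 := h8.trans (h6.trans h9)
  have hrn : r ^ n = r * r ^ (n - 1) := by
    rw [← pow_succ']
    congr 1
    omega
  have h11 : (c * r ^ n) * (c * (r / 2) ^ n) =
      (n * (3 * r) ^ (n + 1)) * (c ^ 2 / (2 ^ n * n * 3 ^ (n + 1)) * r ^ (n - 1)) := by
    rw [mul_pow, div_pow, pow_succ r n, hrn]
    field_simp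
  rw [h11] at h10
  exact le_of_mul_le_mul_left h10 (by positivity)

end Pool.Agent.R169.MinSub
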