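import Mathlib

set_option autoImplicit false

/-!
# Touching triplets and quadruples: octahedral pieces of the face-centred cubic lattice
-/

namespace Pool.Agent.R169.Oct

/-- Euclidean 3-space. -/
abbrev E3 : Type := EuclideanSpace ℝ (Fin 3)

/-- `P` is the set of centres of a packing of unit balls: different centres have distance at
least `2`. -/
def IsPacking (P : Finset E3) : Prop := ∀ x ∈ P, ∀ y ∈ P, x ≠ y → 2 ≤ dist x y

open Classical in
/-- The number of `m`-element sets of pairwise touching unit balls among the unit balls with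
centres in `P` (touching triplets for `m = 3`, touching quadruples for `m = 4`). -/
noncomputable def numTouching (m : ℕ) (P : Finset E3) : ℕ :=
  ((P.powersetCard m).filter fun T => ∀ x ∈ T, ∀ y ∈ T, x ≠ y → dist x y = 2).card

/-- integer points -/
abbrev Z3 : Type := ℤ × ℤ × ℤ

/-- squared distance of integer points -/
def sq (p q : Z3) : ℤ := (p.1 - q.1) ^ 2 + (p.2.1 - q.2.1) ^ 2 + (p.2.2 - q.2.2) ^ 2

/-- scaling by `√2` -/
noncomputable def Phi (p : Z3) : E3 :=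
  !₂[Real.sqrt 2 * p.1, Real.sqrt 2 * p.2.1, Real.sqrt 2 * p.2.2]

theorem dist_Phi_sq (p q : Z3) : dist (Phi p) (Phi q) ^ 2 = 2 * (sq p q : ℝ) := by
  rw [EuclideanSpace.dist_eq, Real.sq_sqrt (Finset.sum_nonneg fun i _ => sq_nonneg _)]
  have h2 : Real.sqrt 2 ^ 2 = 2 := Real.sq_sqrt (by norm_num)
  simp only [Fin.sum_univ_three, Real.dist_eq, sq_abs, Phi, sq]
  simp only [Matrix.cons_val_zero, Matrix.cons_val_one, Matrix.cons_val]
  push_cast
  have e : ∀ a b : ℝ, (Real.sqrt 2 * a - Real.sqrt 2 * b) ^ 2 = 2 * (a - b) ^ 2 := by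
    intro a b
    have : (Real.sqrt 2 * a - Real.sqrt 2 * b) ^ 2 = Real.sqrt 2 ^ 2 * (a - b) ^ 2 := by ring
    rw [this, h2]
  rw [e, e, e]
  ring

theorem dist_Phi_eq {p q : Z3} (h : sq p q = 2) : dist (Phi p) (Phi q) = 2 := by
  have h1 := dist_Phi_sq p q
  rw [h] at h1
  have h0 : 0 ≤ dist (Phi p) (Phi q) := dist_nonneg
  push_cast at h1
  nlinarith

theorem dist_Phi_ge {p q : Z3} (h : 2 ≤ sq p q) : 2 ≤ dist (Phi p) (Phi q) := by
  have h1 := dist_Phi_sq p q
  have h0 : 0 ≤ dist (Phi p) (Phi q) := dist_nonneg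
  have h2 : (2 : ℝ) ≤ sq p q := by exact_mod_cast h
  nlinarith

theorem sq_pos {p q : Z3} (h : p ≠ q) : 0 < sq p q := by
  unfold sq
  by_contra hc
  push Not at hc
  apply h
  have h1 : (p.1 - q.1) ^ 2 = 0 := by nlinarith [sq_nonneg (p.1 - q.1), sq_nonneg (p.2.1 - q.2.1), sq_nonneg (p.2.2 - q.2.2)]
  have h2 : (p.2.1 - q.2.1) ^ 2 = 0 := by nlinarith [sq_nonneg (p.1 - q.1), sq_nonneg (p.2.1 - q.2.1), sq_nonneg (p.2.2 - q.2.2)]
  have h3 : (p.2.2 - q.2.2) ^ 2 = 0 := by nlinarith [sq_nonneg (p.1 - q.1), sq_nonneg (p.2.1 - q.2.1), sq_nonneg (p.2.2 - q.2.2)]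
  rw [sq_eq_zero_iff] at h1 h2 h3
  refine Prod.ext (by omega) (Prod.ext (by omega) (by omega))

theorem Phi_injective : Function.Injective Phi := by
  intro p q h
  by_contra hne
  have h1 := dist_Phi_sq p q
  rw [h, dist_self] at h1
  have h2 := sq_pos hne
  have h3 : (0 : ℝ) < sq p q := by exact_mod_cast h2
  nlinarith

/-- sets of integer points of constant parity give packings -/
theorem packing_of_parity (S : Finset Z3) (m : ℤ)
    (hS : ∀ p ∈ S, (p.1 + p.2.1 + p.2.2 - m) % 2 = 0) : IsPacking (S.image Phi) := by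
  intro x hx y hy hxy
  rw [Finset.mem_image] at hx hy
  obtain ⟨p, hp, rfl⟩ := hx
  obtain ⟨q, hq, rfl⟩ := hy
  have hne : p ≠ q := fun h => hxy (by rw [h])
  apply dist_Phi_ge
  have h1 := sq_pos hne
  have h2 : (sq p q) % 2 = 0 := by
    have e1 := hS p hp
    have e2 := hS q hq
    have e3 : sq p q = ((p.1 - q.1) + (p.2.1 - q.2.1) + (p.2.2 - q.2.2)) ^ 2 -
      2 * ((p.1 - q.1) * (p.2.1 - q.2.1) + (p.1 - q.1) * (p.2.2 - q.2.2) +
        (p.2.1 - q.2.1) * (p.2.2 - q.2.2)) := by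
      unfold sq; ring
    obtain ⟨k, hk⟩ : ∃ k, (p.1 - q.1) + (p.2.1 - q.2.1) + (p.2.2 - q.2.2) = 2 * k :=
      ⟨((p.1 - q.1) + (p.2.1 - q.2.1) + (p.2.2 - q.2.2)) / 2, by omega⟩
    rw [e3, hk]
    have : (2 * k) ^ 2 - 2 * ((p.1 - q.1) * (p.2.1 - q.2.1) + (p.1 - q.1) * (p.2.2 - q.2.2) +
        (p.2.1 - q.2.1) * (p.2.2 - q.2.2)) = 2 * (2 * k ^ 2 - ((p.1 - q.1) * (p.2.1 - q.2.1) +
        (p.1 - q.1) * (p.2.2 - q.2.2) + (p.2.1 - q.2.1) * (p.2.2 - q.2.2))) := by ring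
    rw [this]
    exact Int.mul_emod_right 2 _
  omega

/-- counting touching sets through an injective family -/
theorem le_numTouching {ι : Type} [DecidableEq ι] (F : Finset ι) (g : ι → Finset Z3) (m : ℕ)
    (S : Finset Z3) (hinj : ∀ i ∈ F, ∀ j ∈ F, g i = g j → i = j) (hsub : ∀ i ∈ F, g i ⊆ S)
    (hcard : ∀ i ∈ F, (g i).card = m)
    (htouch : ∀ i ∈ F, ∀ x ∈ g i, ∀ y ∈ g i, x ≠ y → sq x y = 2) :
    F.card ≤ numTouching m (S.image Phi) := by
  classical
  unfold numTouching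
  apply Finset.card_le_card_of_injOn (fun i => (g i).image Phi)
  · intro i hi
    have hi' : i ∈ F := hi
    simp only [Finset.coe_filter, Set.mem_ofPred_eq, Finset.mem_powersetCard]
    refine ⟨⟨Finset.image_subset_image (hsub i hi'), ?_⟩, ?_⟩
    · rw [Finset.card_image_of_injective _ Phi_injective, hcard i hi']
    · intro x hx y hy hxy
      rw [Finset.mem_image] at hx hy
      obtain ⟨p, hp, rfl⟩ := hx
      obtain ⟨q, hq, rfl⟩ := hy
      exact dist_Phi_eq (htouch i hi' p hp q hq fun h => hxy (by rw [h]))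
  · intro i hi j hj hij
    exact hinj i hi j hj (Finset.image_injective Phi_injective hij)

/-- the octahedral piece of the fcc lattice -/
noncomputable def S (m : ℕ) : Finset Z3 :=
  ((Finset.Icc (-(m : ℤ)) m) ×ˢ (Finset.Icc (-(m : ℤ)) m) ×ˢ (Finset.Icc (-(m : ℤ)) m)).filter
    fun p => p.1.natAbs + p.2.1.natAbs + p.2.2.natAbs ≤ m ∧ (p.1 + p.2.1 + p.2.2 - m) % 2 = 0

theorem mem_S {m : ℕ} {p : Z3} : p ∈ S m ↔
    p.1.natAbs + p.2.1.natAbs + p.2.2.natAbs ≤ m ∧ (p.1 + p.2.1 + p.2.2 - m) % 2 = 0 := by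
  unfold S
  rw [Finset.mem_filter, Finset.mem_product, Finset.mem_product, Finset.mem_Icc, Finset.mem_Icc,
    Finset.mem_Icc]
  constructor
  · rintro ⟨_, h⟩; exact h
  · rintro ⟨h1, h2⟩
    refine ⟨?_, h1, h2⟩
    omega

theorem sum_natAbs (m : ℕ) (g : ℕ → ℕ) :
    ∑ c ∈ Finset.Icc (-(m : ℤ)) m, g c.natAbs = g 0 + 2 * ∑ j ∈ Finset.range m, g (j + 1) := by
  induction m with
  | zero => simp
  | succ m ih =>
    have h : Finset.Icc (-((m + 1 : ℕ) : ℤ)) ((m + 1 : ℕ) : ℤ) =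
        insert (-((m + 1 : ℕ) : ℤ)) (insert ((m + 1 : ℕ) : ℤ) (Finset.Icc (-(m : ℤ)) m)) := by
      ext x
      simp only [Finset.mem_insert, Finset.mem_Icc]
      push_cast
      omega
    rw [h, Finset.sum_insert, Finset.sum_insert, ih, Finset.sum_range_succ]
    · have e1 : (-((m + 1 : ℕ) : ℤ)).natAbs = m + 1 := by omega
      have e2 : (((m + 1 : ℕ) : ℤ)).natAbs = m + 1 := by omega
      rw [e1, e2]; ring
    · simp only [Finset.mem_Icc]; push_cast; omega
    · simp only [Finset.mem_insert, Finset.mem_Icc]; push_cast; omega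

theorem card_S_aux (m : ℕ) :
    (S m).card = ∑ c ∈ Finset.Icc (-(m : ℤ)) m, (m - c.natAbs + 1) ^ 2 := by
  have h : (S m).card = ((Finset.Icc (-(m : ℤ)) m).sigma fun c =>
      (Finset.range (m - c.natAbs + 1)) ×ˢ (Finset.range (m - c.natAbs + 1))).card := by
    symm
    apply Finset.card_nbij' (fun a => ((a.2.1 : ℤ) + a.2.2 - (m - a.1.natAbs), (a.2.1 : ℤ) - a.2.2, a.1))
      (fun p => ⟨p.2.2, ((p.1 + p.2.1 + (m - p.2.2.natAbs)) / 2).toNat,
        ((p.1 - p.2.1 + (m - p.2.2.natAbs)) / 2).toNat⟩)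
    · rintro ⟨c, u, v⟩ ha
      simp only [Finset.coe_sigma, Finset.coe_product, Finset.coe_Icc, Finset.coe_range,
        Set.mem_sigma_iff, Set.mem_prod, Set.mem_Icc, Set.mem_Iio] at ha
      rw [Finset.mem_coe, mem_S]
      simp only
      omega
    · rintro ⟨x, y, z⟩ hp
      rw [Finset.mem_coe, mem_S] at hp
      simp only at hp
      simp only [Finset.coe_sigma, Finset.coe_product, Finset.coe_Icc, Finset.coe_range,
        Set.mem_sigma_iff, Set.mem_prod, Set.mem_Icc, Set.mem_Iio]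
      omega
    · rintro ⟨c, u, v⟩ ha
      simp only [Finset.coe_sigma, Finset.coe_product, Finset.coe_Icc, Finset.coe_range,
        Set.mem_sigma_iff, Set.mem_prod, Set.mem_Icc, Set.mem_Iio] at ha
      simp only [Sigma.mk.injEq, heq_eq_eq, Prod.mk.injEq, true_and]
      omega
    · rintro ⟨x, y, z⟩ hp
      rw [Finset.mem_coe, mem_S] at hp
      simp only at hp
      simp only [Prod.mk.injEq, and_true]
      omega
  rw [h, Finset.card_sigma]
  apply Finset.sum_congr rfl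
  intro c _
  rw [Finset.card_product, Finset.card_range]
  ring

theorem sum_squares (m : ℕ) :
    6 * ∑ j ∈ Finset.range m, (m - (j + 1) + 1) ^ 2 = m * (m + 1) * (2 * m + 1) := by
  have h : ∑ j ∈ Finset.range m, (m - (j + 1) + 1) ^ 2 = ∑ j ∈ Finset.range m, (j + 1) ^ 2 := by
    rw [← Finset.sum_range_reflect]
    apply Finset.sum_congr rfl
    intro j hj
    rw [Finset.mem_range] at hj
    congr 1
    omega
  rw [h]
  clear h
  induction m with
  | zero => simp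
  | succ m ih => rw [Finset.sum_range_succ, mul_add, ih]; ring

/-- `3 |S m| = (m + 1) (2 (m + 1)² + 1)` -/
theorem card_S (m : ℕ) : 3 * (S m).card = (m + 1) * (2 * (m + 1) ^ 2 + 1) := by
  have h1 := card_S_aux m
  rw [sum_natAbs m (fun j => (m - j + 1) ^ 2)] at h1
  have h2 := sum_squares m
  simp only [Nat.sub_zero] at h1
  nlinarith

/-- the eight sign vectors -/
def signs : Finset Z3 := ({1, -1} : Finset ℤ) ×ˢ ({1, -1} : Finset ℤ) ×ˢ ({1, -1} : Finset ℤ)

theorem card_signs : signs.card = 8 := by decide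

theorem mem_signs {s : Z3} : s ∈ signs ↔
    (s.1 = 1 ∨ s.1 = -1) ∧ (s.2.1 = 1 ∨ s.2.1 = -1) ∧ (s.2.2 = 1 ∨ s.2.2 = -1) := by
  simp [signs]

/-- the triangle `q + s₁ e₁, q + s₂ e₂, q + s₃ e₃` -/
def tri (a : Z3 × Z3) : Finset Z3 :=
  {(a.1.1 + a.2.1, a.1.2.1, a.1.2.2), (a.1.1, a.1.2.1 + a.2.2.1, a.1.2.2),
    (a.1.1, a.1.2.1, a.1.2.2 + a.2.2.2)}

theorem mem_tri {a : Z3 × Z3} {p : Z3} : p ∈ tri a ↔
    p = (a.1.1 + a.2.1, a.1.2.1, a.1.2.2) ∨ p = (a.1.1, a.1.2.1 + a.2.2.1, a.1.2.2) ∨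
      p = (a.1.1, a.1.2.1, a.1.2.2 + a.2.2.2) := by
  simp [tri]

theorem tri_sum {a : Z3 × Z3} (ha : a.2 ∈ signs) : ∑ p ∈ tri a, p =
    (3 * a.1.1 + a.2.1, 3 * a.1.2.1 + a.2.2.1, 3 * a.1.2.2 + a.2.2.2) := by
  rw [mem_signs] at ha
  unfold tri
  rw [Finset.sum_insert, Finset.sum_insert, Finset.sum_singleton]
  · simp only [Prod.mk_add_mk]
    refine Prod.ext ?_ (Prod.ext ?_ ?_) <;> simp only <;> ring
  · simp only [Finset.mem_singleton, Prod.mk.injEq]
    omega
  · simp only [Finset.mem_insert, Finset.mem_singleton, Prod.mk.injEq]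
    omega

theorem tri_card {a : Z3 × Z3} (ha : a.2 ∈ signs) : (tri a).card = 3 := by
  rw [mem_signs] at ha
  unfold tri
  rw [Finset.card_insert_of_notMem, Finset.card_insert_of_notMem, Finset.card_singleton]
  · simp only [Finset.mem_singleton, Prod.mk.injEq]
    omega
  · simp only [Finset.mem_insert, Finset.mem_singleton, Prod.mk.injEq]
    omega

theorem tri_injOn {a b : Z3 × Z3} (ha : a.2 ∈ signs) (hb : b.2 ∈ signs) (h : tri a = tri b) :
    a = b := by
  have h1 := tri_sum ha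
  rw [h, tri_sum hb] at h1
  rw [mem_signs] at ha hb
  simp only [Prod.mk.injEq] at h1
  refine Prod.ext (Prod.ext ?_ (Prod.ext ?_ ?_)) (Prod.ext ?_ (Prod.ext ?_ ?_)) <;> omega

theorem tri_touch {a : Z3 × Z3} (ha : a.2 ∈ signs) : ∀ x ∈ tri a, ∀ y ∈ tri a, x ≠ y →
    sq x y = 2 := by
  obtain ⟨⟨q1, q2, q3⟩, ⟨s1, s2, s3⟩⟩ := a
  rw [mem_signs] at ha
  simp only at ha
  obtain ⟨h1, h2, h3⟩ := ha
  have e1 : s1 ^ 2 = 1 := by rcases h1 with rfl | rfl <;> norm_num
  have e2 : s2 ^ 2 = 1 := by rcases h2 with rfl | rfl <;> norm_num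
  have e3 : s3 ^ 2 = 1 := by rcases h3 with rfl | rfl <;> norm_num
  intro x hx y hy hxy
  rw [mem_tri] at hx hy
  simp only at hx hy
  rcases hx with rfl | rfl | rfl <;> rcases hy with rfl | rfl | rfl <;>
    first
      | exact absurd rfl hxy
      | (unfold sq; simp only; nlinarith)

end Pool.Agent.R169.Oct
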